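import Pool.Agent.P8H18.RR.Stm

/-!
# Project RR: packages BIJ and GAP
-/

set_option autoImplicit false

namespace Pool.Agent.P8H37.RR

open Finset Pool.Agent.P8H18.RR

theorem dig_inj : ∀ (D m n : ℕ), m < 10 ^ D → n < 10 ^ D → (∀ i < D, dig m i = dig n i) → m = n
  | 0, m, n, hm, hn, _ => by
    simp only [pow_zero] at hm hn
    omega
  | D + 1, m, n, hm, hn, h => by
    have h0 := h 0 (by omega)
    simp only [dig, pow_zero, Nat.div_one] at h0
    have h1 : m / 10 = n / 10 := by
      refine dig_inj D (m / 10) (n / 10) ?_ ?_ ?_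
      · rw [Nat.div_lt_iff_lt_mul (by norm_num)]
        rwa [pow_succ] at hm
      · rw [Nat.div_lt_iff_lt_mul (by norm_num)]
        rwa [pow_succ] at hn
      · intro i hi
        have h2 := h (i + 1) (by omega)
        simp only [dig] at h2 ⊢
        rw [Nat.div_div_eq_div_mul, Nat.div_div_eq_div_mul, ← pow_succ']
        exact h2
    omega

theorem bij : S_BIJ := by
  intro L e f hL x y
  set S := (range (10 ^ (2 * L + 1))).filter (fun n => dig n 0 = e ∧ dig n (2 * L) = f ∧
    (∀ i : Fin (L - 1), dig n (i + 1) = x i) ∧ (∀ i : Fin (L - 1), dig n (2 * L - (i + 1)) = y i)) with hS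
  have h1 : S.card ≤ (range 10).card := by
    refine card_le_card_of_injOn (fun n => dig n L) ?_ ?_
    · intro n _
      simp only [coe_range, Set.mem_Iio, dig]
      omega
    · intro m hm n hn hmn
      simp only at hmn
      rw [mem_coe, hS, mem_filter, mem_range] at hm hn
      obtain ⟨hm0, hm1, hm2, hm3, hm4⟩ := hm
      obtain ⟨hn0, hn1, hn2, hn3, hn4⟩ := hn
      refine dig_inj _ m n hm0 hn0 ?_
      intro i hi
      rcases Nat.lt_trichotomy i L with h | h | h
      · rcases Nat.eq_zero_or_pos i with h0 | h0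
        · rw [h0, hm1, hn1]
        · have e1 := hm3 ⟨i - 1, by omega⟩
          have e2 := hn3 ⟨i - 1, by omega⟩
          simp only at e1 e2
          rw [show i - 1 + 1 = i by omega] at e1 e2
          rw [e1, e2]
      · rw [h]
        exact hmn
      · rcases Nat.lt_or_ge i (2 * L) with h0 | h0
        · have e1 := hm4 ⟨2 * L - i - 1, by omega⟩
          have e2 := hn4 ⟨2 * L - i - 1, by omega⟩
          simp only at e1 e2
          rw [show 2 * L - (2 * L - i - 1 + 1) = i by omega] at e1 e2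
          rw [e1, e2]
        · rw [show i = 2 * L by omega, hm2, hn2]
  rwa [card_range] at h1

/-- a window without elements of `U` -/
theorem window (L G : ℕ) (U : Finset ℕ) : ∃ k ≤ U.card, ∀ i ∈ U, ¬ (L + k * (G + 1) < i ∧ i ≤ L + k * (G + 1) + G) := by
  by_contra hcon
  push Not at hcon
  choose! f hf hf1 hf2 using hcon
  have h := card_le_card_of_injOn (s := range (U.card + 1)) (t := U) f (by
    intro k hk
    rw [coe_range, Set.mem_Iio] at hk
    exact hf k (by omega)) (by
    intro k hk k' hk' he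
    rw [coe_range, Set.mem_Iio] at hk hk'
    have a1 := hf1 k (by omega)
    have a2 := hf2 k (by omega)
    have b1 := hf1 k' (by omega)
    have b2 := hf2 k' (by omega)
    rw [← he] at b1 b2
    by_contra hne
    rcases Nat.lt_or_gt_of_ne hne with h | h
    · have : (k + 1) * (G + 1) ≤ k' * (G + 1) := Nat.mul_le_mul_right _ h
      nlinarith
    · have : (k' + 1) * (G + 1) ≤ k * (G + 1) := Nat.mul_le_mul_right _ h
      nlinarith)
  rw [card_range] at h
  omega

theorem geo (m n : ℕ) : ∑ i ∈ Ico m (m + n), (1 : ℝ) / 10 ^ (i + 1) = (1 / 10 ^ m - 1 / 10 ^ (m + n)) / 9 := by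
  induction n with
  | zero => simp
  | succ n ih =>
    rw [← add_assoc, sum_Ico_succ_top (by omega), ih]
    have h1 : (10 : ℝ) ^ m ≠ 0 := by positivity
    have h2 : (10 : ℝ) ^ (m + n) ≠ 0 := by positivity
    rw [pow_succ (10 : ℝ) (m + n)]
    field_simp
    ring

theorem tail (V : Finset ℕ) (m : ℕ) (h : ℕ → ℤ) (H : ℕ) (hV : ∀ i ∈ V, m ≤ i) (hh : ∀ i ∈ V, |h i| ≤ (H : ℤ)) :
    |∑ i ∈ V, (h i : ℝ) / 10 ^ (i + 1)| ≤ H / (9 * 10 ^ m) := by
  obtain ⟨M, hM⟩ := V.exists_nat_subset_range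
  have h1 : |∑ i ∈ V, (h i : ℝ) / 10 ^ (i + 1)| ≤ ∑ i ∈ V, (H : ℝ) * (1 / 10 ^ (i + 1)) := by
    refine (abs_sum_le_sum_abs _ _).trans (sum_le_sum fun i hi => ?_)
    rw [abs_div, abs_of_pos (show (0 : ℝ) < 10 ^ (i + 1) by positivity), mul_one_div]
    have h2 : |(h i : ℝ)| ≤ H := by
      have := hh i hi
      exact_mod_cast this
    gcongr
  have h3 : V ⊆ Ico m (m + M) := by
    intro i hi
    have h4 := hM hi
    rw [mem_range] at h4
    rw [mem_Ico]
    exact ⟨hV i hi, by omega⟩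
  have h5 : ∑ i ∈ V, (1 : ℝ) / 10 ^ (i + 1) ≤ 1 / (9 * 10 ^ m) := by
    refine (sum_le_sum_of_subset_of_nonneg h3 fun i _ _ => by positivity).trans ?_
    rw [geo]
    have : (0 : ℝ) ≤ 1 / 10 ^ (m + M) := by positivity
    have e : (1 : ℝ) / (9 * 10 ^ m) = (1 / 10 ^ m) / 9 := by
      field_simp
    rw [e]
    linarith
  rw [← mul_sum] at h1
  refine h1.trans ((mul_le_mul_of_nonneg_left h5 (Nat.cast_nonneg H)).trans (le_of_eq ?_))
  rw [mul_one_div]

theorem gap : S_GAP := by
  intro L G T H Q U h hH hQ hU hh h10 hex hcard hG hT a q hq hqQ hco happ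
  obtain ⟨k, hk, hwin⟩ := window L G U
  set r := L + k * (G + 1) with hr
  have hr1 : k * (G + 1) ≤ U.card * (G + 1) := Nat.mul_le_mul_right _ hk
  have hr2 : r + T + 2 + (G + 1) ≤ 2 * L := by
    have : (U.card + 1) * (G + 1) = U.card * (G + 1) + (G + 1) := by ring
    omega
  -- the splitting
  set A : ℤ := ∑ i ∈ U.filter (fun i => i ≤ r), h i * 10 ^ (r - i) with hA
  set R : ℝ := ∑ i ∈ U.filter (fun i => ¬ i ≤ r), (h i : ℝ) / 10 ^ (i + 1) with hR
  have hsplit : fr U h = A / 10 ^ (r + 1) + R := by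
    unfold fr
    rw [← sum_filter_add_sum_filter_not U (fun i => i ≤ r)]
    congr 1
    rw [hA, Int.cast_sum, sum_div]
    refine sum_congr rfl fun i hi => ?_
    rw [mem_filter] at hi
    push_cast
    have e : (10 : ℝ) ^ (r + 1) = 10 ^ (r - i) * 10 ^ (i + 1) := by
      rw [← pow_add]
      congr 1
      omega
    rw [e]
    have h1 : (10 : ℝ) ^ (r - i) ≠ 0 := by positivity
    have h2 : (10 : ℝ) ^ (i + 1) ≠ 0 := by positivity
    field_simp
  have hRle : |R| ≤ H / (9 * 10 ^ (r + G + 1)) := by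
    refine tail _ _ _ _ ?_ ?_
    · intro i hi
      rw [mem_filter] at hi
      have h1 := hwin i hi.1
      omega
    · intro i hi
      exact hh i (mem_filter.1 hi).1
  have hqpos : (0 : ℝ) < q := by exact_mod_cast hq
  have hQpos : (0 : ℝ) < Q := by exact_mod_cast hQ
  have hqQ' : (q : ℝ) ≤ Q := by exact_mod_cast hqQ
  have h10r : (0 : ℝ) < 10 ^ (r + 1) := by positivity
  -- closeness
  have hclose : |(A : ℝ) / 10 ^ (r + 1) - a / q| ≤ H / (9 * 10 ^ (r + G + 1)) + Q / 10 ^ (2 * L + 1) := by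
    have e : (A : ℝ) / 10 ^ (r + 1) - a / q = (fr U h - a / q) - R := by
      rw [hsplit]
      ring
    rw [e]
    refine (abs_sub _ _).trans ?_
    linarith
  have hsmall : |(A : ℝ) * q - a * 10 ^ (r + 1)| < 1 := by
    have e : (A : ℝ) * q - a * 10 ^ (r + 1) = ((A : ℝ) / 10 ^ (r + 1) - a / q) * (q * 10 ^ (r + 1)) := by
      field_simp
    rw [e, abs_mul, abs_of_pos (show (0 : ℝ) < q * 10 ^ (r + 1) by positivity)]
    have h1 : |(A : ℝ) / 10 ^ (r + 1) - a / q| * (q * 10 ^ (r + 1)) ≤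
        (H / (9 * 10 ^ (r + G + 1)) + Q / 10 ^ (2 * L + 1)) * (Q * 10 ^ (r + 1)) := by
      gcongr
    refine lt_of_le_of_lt h1 ?_
    have hG' : (4 : ℝ) * H * Q ≤ 10 ^ G := by exact_mod_cast hG
    have hT' : (4 : ℝ) * Q ^ 2 ≤ 10 ^ T := by exact_mod_cast hT
    have e1 : (H : ℝ) / (9 * 10 ^ (r + G + 1)) * (Q * 10 ^ (r + 1)) = H * Q / (9 * 10 ^ G) := by
      rw [show r + G + 1 = G + (r + 1) by ring, pow_add (10 : ℝ) G (r + 1)]
      field_simp
    have e2 : (Q : ℝ) / 10 ^ (2 * L + 1) * (Q * 10 ^ (r + 1)) = Q ^ 2 / 10 ^ (2 * L - r) := by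
      have e3 : (10 : ℝ) ^ (2 * L + 1) = 10 ^ (2 * L - r) * 10 ^ (r + 1) := by
        rw [← pow_add]
        congr 1
        omega
      rw [e3]
      field_simp
    rw [add_mul, e1, e2]
    have h2 : (H : ℝ) * Q / (9 * 10 ^ G) ≤ 1 / 36 := by
      rw [div_le_div_iff₀ (by positivity) (by norm_num)]
      linarith
    have h3 : (Q : ℝ) ^ 2 / 10 ^ (2 * L - r) ≤ 1 / 4 := by
      have h4 : (10 : ℝ) ^ T ≤ 10 ^ (2 * L - r) := pow_le_pow_right₀ (by norm_num) (by omega)
      rw [div_le_div_iff₀ (by positivity) (by norm_num)]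
      linarith
    linarith
  have hint : A * q = a * 10 ^ (r + 1) := by
    have h1 : |((A * q - a * 10 ^ (r + 1) : ℤ) : ℝ)| < 1 := by
      push_cast
      exact hsmall
    have h2 : |A * q - a * 10 ^ (r + 1)| < 1 := by exact_mod_cast h1
    rw [Int.abs_lt_one_iff] at h2
    linarith
  constructor
  · have h1 : (q : ℤ) ∣ 10 ^ (r + 1) := by
      have h2 : (q : ℤ) ∣ a * 10 ^ (r + 1) := ⟨A, by rw [← hint]; ring⟩
      exact hco.symm.dvd_of_dvd_mul_left h2
    have h3 : (q : ℤ) ∣ ((10 ^ (2 * L + 1) : ℕ) : ℤ) := by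
      push_cast
      exact h1.trans (pow_dvd_pow _ (by omega))
    exact_mod_cast h3
  · rintro ⟨t, ht⟩
    have hA' : A = a * t * 10 ^ r := by
      have h1 : A * (q * t) = a * t * 10 ^ (r + 1) := by
        rw [← mul_assoc, hint]
        ring
      have h2 : (q : ℤ) * t = 10 := by exact_mod_cast ht.symm
      rw [h2, pow_succ] at h1
      have h3 : (10 : ℤ) * A = 10 * (a * t * 10 ^ r) := by linarith
      exact mul_left_cancel₀ (by norm_num) h3
    obtain ⟨i0, hi0, hi1, hi2⟩ := hex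
    have hne : (U.filter (fun i => i ≤ r)).Nonempty := ⟨i0, mem_filter.2 ⟨hi0, by omega⟩⟩
    set s := (U.filter (fun i => i ≤ r)).max' hne with hs
    have hsU := (U.filter (fun i => i ≤ r)).max'_mem hne
    rw [← hs, mem_filter] at hsU
    have hs1 : i0 ≤ s := le_max' _ _ (mem_filter.2 ⟨hi0, by omega⟩)
    have hdiv : (10 : ℤ) ∣ h s := by
      have h1 : A = 10 ^ (r - s) * (h s + ∑ i ∈ (U.filter (fun i => i ≤ r)).erase s, h i * 10 ^ (s - i)) := by
        rw [hA, ← add_sum_erase _ _ (mem_filter.2 hsU), mul_add, mul_sum]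
        congr 1
        · ring
        · refine sum_congr rfl fun i hi => ?_
          rw [mem_erase] at hi
          have h2 : i ≤ s := le_max' _ _ hi.2
          have e : (10 : ℤ) ^ (r - i) = 10 ^ (r - s) * 10 ^ (s - i) := by
            rw [← pow_add]
            congr 1
            omega
          rw [e]
          ring
      have h2 : (10 : ℤ) ∣ ∑ i ∈ (U.filter (fun i => i ≤ r)).erase s, h i * 10 ^ (s - i) := by
        refine dvd_sum fun i hi => ?_
        rw [mem_erase] at hi
        have h3 : i ≤ s := le_max' _ _ hi.2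
        have h4 : i ≠ s := hi.1
        exact (dvd_pow_self (10 : ℤ) (by omega)).mul_left _
      have h5 : (10 : ℤ) ^ (r - s) * (h s + ∑ i ∈ (U.filter (fun i => i ≤ r)).erase s, h i * 10 ^ (s - i)) =
          10 ^ (r - s) * (a * t * 10 ^ s) := by
        rw [← h1, hA']
        have e : (10 : ℤ) ^ r = 10 ^ (r - s) * 10 ^ s := by
          rw [← pow_add]
          congr 1
          omega
        rw [e]
        ring
      have h6 := mul_left_cancel₀ (pow_ne_zero _ (by norm_num : (10 : ℤ) ≠ 0)) h5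
      have h7 : (10 : ℤ) ∣ a * t * 10 ^ s := (dvd_pow_self (10 : ℤ) (by omega)).mul_left _
      rw [← h6] at h7
      exact (dvd_add_left h2).1 h7
    exact h10 s hsU.1 (by omega) (by omega) hdiv

end Pool.Agent.P8H37.RR
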